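import Pool.Agent.Helper74K9.PS.St
import Pool.Agent.Helper83K9.CF.Fix

/-!
The fractional theorem on the line from optimal weights and the certificate: the last step.
-/

set_option autoImplicit false

namespace Pool.Agent.Helper64K9.PS2

open Finset Pool.Agent.Helper83K9.CF Pool.Agent.Helper74K9.PS

theorem sum_load (N : ℕ) (w : Finset ℕ → ℝ) :
    ∑ v ∈ range N, load N w v = ∑ Y ∈ (range N).powerset, w Y * Y.card := by
  unfold load
  rw [Finset.sum_comm]
  refine Finset.sum_congr rfl fun Y hY => ?_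
  rw [← Finset.sum_filter, Finset.sum_const, nsmul_eq_mul, mul_comm]
  have e : (range N).filter (fun v => v ∈ Y) = Y := by
    ext v
    rw [mem_filter]
    exact ⟨fun h => h.2, fun h => ⟨mem_powerset.1 hY h, h⟩⟩
  rw [e]

open Classical in
theorem sum_load_pos (N : ℕ) (w : Finset ℕ → ℝ) (f : ℕ → ℝ) :
    ∑ v ∈ (range N).filter (fun v => 0 < f v), load N w v =
      ∑ Y ∈ (range N).powerset, w Y * (Y.filter (fun v => 0 < f v)).card := by
  unfold load
  rw [Finset.sum_comm]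
  refine Finset.sum_congr rfl fun Y hY => ?_
  rw [← Finset.sum_filter, Finset.sum_const, nsmul_eq_mul, mul_comm]
  have e : ((range N).filter (fun v => 0 < f v)).filter (fun v => v ∈ Y) =
      Y.filter (fun v => 0 < f v) := by
    ext v
    rw [mem_filter, mem_filter, mem_filter]
    exact ⟨fun h => ⟨h.2, h.1.2⟩, fun h => ⟨⟨mem_powerset.1 hY h.1, h.2⟩, h.1⟩⟩
  rw [e]

open Classical in
/-- equality in the count of the total mass -/
theorem tight (t N : ℕ) (μ f lam : ℕ → ℝ) (w : Finset ℕ → ℝ) (hf0 : ∀ v, 0 ≤ f v)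
    (hw0 : ∀ Y, 0 ≤ w Y) (hwt : ∀ Y, w Y ≠ 0 → Y.card ≤ t)
    (hlam : ∀ v, lam v ≠ 0 → 0 < f v)
    (hcov : ∀ v, v < N → μ v ≤ load N w v + lam v)
    (heq : ∀ v, v < N → 0 < f v → load N w v + lam v = μ v)
    (hcert : ∑ Y ∈ (range N).powerset, w Y * ((t : ℝ) - (Y.filter (fun v => 0 < f v)).card) ≤
      ∑ v ∈ (range N).filter (fun v => f v = 0), μ v) :
    (∀ Y ∈ (range N).powerset, w Y ≠ 0 → Y.card = t) ∧
      ∀ v, v < N → load N w v + lam v = μ v := by
  -- total mass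
  have e0 : (range N).filter (fun v => ¬ 0 < f v) = (range N).filter (fun v => f v = 0) := by
    refine Finset.filter_congr fun v _ => ?_
    constructor
    · exact fun h => le_antisymm (not_lt.1 h) (hf0 v)
    · intro h h'
      rw [h] at h'
      exact lt_irrefl _ h'
  have e1 : ∑ v ∈ range N, μ v = ∑ v ∈ (range N).filter (fun v => 0 < f v), μ v +
      ∑ v ∈ (range N).filter (fun v => f v = 0), μ v := by
    rw [← e0, Finset.sum_filter_add_sum_filter_not]
  have e2 : ∑ v ∈ (range N).filter (fun v => 0 < f v), μ v =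
      ∑ v ∈ (range N).filter (fun v => 0 < f v), load N w v +
      ∑ v ∈ (range N).filter (fun v => 0 < f v), lam v := by
    rw [← Finset.sum_add_distrib]
    refine Finset.sum_congr rfl fun v hv => ?_
    rw [mem_filter, mem_range] at hv
    exact (heq v hv.1 hv.2).symm
  have e3 : ∑ v ∈ range N, lam v = ∑ v ∈ (range N).filter (fun v => 0 < f v), lam v := by
    symm
    refine Finset.sum_subset (filter_subset _ _) fun v hv hv' => ?_
    by_contra h
    exact hv' (mem_filter.2 ⟨hv, hlam v h⟩)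
  have e4 := sum_load_pos N w f
  have e5 := sum_load N w
  have e6 : ∑ Y ∈ (range N).powerset, w Y * ((t : ℝ) - (Y.filter (fun v => 0 < f v)).card) =
      ∑ Y ∈ (range N).powerset, w Y * (t : ℝ) -
      ∑ Y ∈ (range N).powerset, w Y * (Y.filter (fun v => 0 < f v)).card := by
    rw [← Finset.sum_sub_distrib]
    refine Finset.sum_congr rfl fun Y _ => ?_
    ring
  have i1 : ∑ Y ∈ (range N).powerset, w Y * (t : ℝ) + ∑ v ∈ range N, lam v ≤
      ∑ v ∈ range N, μ v := by
    rw [e1, e2, e3]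
    linarith
  have i2 : ∀ Y ∈ (range N).powerset, w Y * (Y.card : ℝ) ≤ w Y * (t : ℝ) := by
    intro Y _
    by_cases h : w Y = 0
    · rw [h]
      simp
    · refine mul_le_mul_of_nonneg_left ?_ (hw0 Y)
      exact_mod_cast hwt Y h
  have i3 : ∑ v ∈ range N, (load N w v + lam v) ≤ ∑ v ∈ range N, μ v := by
    rw [Finset.sum_add_distrib, e5]
    have := Finset.sum_le_sum i2
    linarith
  have i4 : ∀ v ∈ range N, μ v = load N w v + lam v := by
    refine (Finset.sum_eq_sum_iff_of_le fun v hv => hcov v (mem_range.1 hv)).1 (le_antisymm ?_ i3)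
    exact Finset.sum_le_sum fun v hv => hcov v (mem_range.1 hv)
  refine ⟨?_, fun v hv => (i4 v (mem_range.2 hv)).symm⟩
  have i5 : ∑ Y ∈ (range N).powerset, w Y * (Y.card : ℝ) =
      ∑ Y ∈ (range N).powerset, w Y * (t : ℝ) := by
    refine le_antisymm (Finset.sum_le_sum i2) ?_
    have h1 : ∑ v ∈ range N, μ v = ∑ v ∈ range N, (load N w v + lam v) :=
      Finset.sum_congr rfl i4
    rw [Finset.sum_add_distrib, e5] at h1
    linarith
  intro Y hY h0
  have h1 := (Finset.sum_eq_sum_iff_of_le i2).1 i5 Y hY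
  have h2 := mul_left_cancel₀ h0 h1
  exact_mod_cast h2

open Classical in
/-- the fractional theorem from weights `w`, `lam` and a certificate -/
theorem frac_of (t : ℕ)
    (H : ∀ (k N : ℕ) (q : ℕ → ℕ → Prop) (μ : ℕ → ℝ), 2 ≤ t → 1 ≤ k →
      (∀ x, q x x) → (∀ x y, q x y → q y x) → (∀ x, 0 ≤ μ x) →
      (∀ z x, k ≤ z → z < N → x < N → z ≤ x + k → x ≤ z + k →
        ((t : ℝ) - 1) * ∑ y ∈ LQ q k N x, μ y ≤ ∑ y ∈ Ico (z - k) z, μ y) →
      ∃ (f lam : ℕ → ℝ) (w : Finset ℕ → ℝ), (∀ v, 0 ≤ f v) ∧ (∀ Y, 0 ≤ w Y) ∧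
        (∀ Y, w Y ≠ 0 → Cq q k N Y ∧ Y.card ≤ t) ∧ (∀ v, 0 ≤ lam v) ∧
        (∀ v, lam v ≠ 0 → v < k ∧ 0 < f v) ∧
        (∀ v, v < N → μ v ≤ load N w v + lam v) ∧
        (∀ v, v < N → 0 < f v → load N w v + lam v = μ v) ∧
        ∑ Y ∈ (range N).powerset, w Y * ((t : ℝ) - (Y.filter (fun v => 0 < f v)).card) ≤
          ∑ v ∈ (range N).filter (fun v => f v = 0), μ v) :
    Fix.T_FRAC t := by
  intro k N q μ ht hk hq1 hq2 hμ hcond
  obtain ⟨f, lam, w, hf0, hw0, hwt, hl0, hl1, hcov, heq, hcert⟩ :=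
    H k N q μ ht hk hq1 hq2 hμ hcond
  obtain ⟨h1, h2⟩ := tight t N μ f lam w hf0 hw0 (fun Y hY => (hwt Y hY).2)
    (fun v hv => (hl1 v hv).2) hcov heq hcert
  refine ⟨w, hw0, fun K hK => ?_, fun v hv => ?_, fun v hkv hv => ?_⟩
  · obtain ⟨hc, _⟩ := hwt K hK
    exact ⟨hc.2.1, h1 K (mem_powerset.2 hc.2.1) hK, hc.2.2⟩
  · have h3 := h2 v hv
    have h4 := hl0 v
    have h5 : load N w v ≤ μ v := by linarith
    unfold load at h5
    convert h5
  · have h3 := h2 v hv
    have h4 : lam v = 0 := by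
      by_contra h
      exact absurd (hl1 v h).1 (not_lt.2 hkv)
    rw [h4, add_zero] at h3
    unfold load at h3
    convert h3

end Pool.Agent.Helper64K9.PS2
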