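import Pool.Agent.Helper83K9.CF.Main

/-!
`A t` for every `t ≥ 3` from the fractional theorem on the line `Fix.T_FRAC t`.
-/

set_option autoImplicit false

namespace Pool.Agent.Helper64K9.PS2

open Finset Pool.Agent.Helper83K9.CF

/-- the value of `A_t` from the fractional theorem on the line for cliques with `t` vertices -/
theorem mainF (t : ℕ) (ht : 3 ≤ t) (h1 : Fix.T_FRAC t) :
    A t = Set.Ioi (1 - 1 / (2 * ((t : ℝ) - 1))) := by
  have h2 : Fix.T_DIST t := Fix.dist t h1
  have h3 : Fix.T_ARC1 t := Fix.arc1 t pot h2 bal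
  have h4 : Fix.T_ALM t := Fix.alm t h3 part rate_
  have h5 : S_ABS := abs_ (fam (fam1 comp))
  have h6 : Fix.T_UP t := Fix.up t h4 h5
  ext α
  rw [Set.mem_Ioi]
  constructor
  · intro h
    by_contra hcon
    exact low t ht (A_up h (not_lt.1 hcon))
  · exact fun h => Fix.red t h6 α ht h

end Pool.Agent.Helper64K9.PS2
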